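import Mathlib
import Pool.Agent.W29.RT.LOW4

/-!
# Curves with a subgroup `Z/2 x Z/4` and no point of order 8
-/

set_option autoImplicit false

namespace Pool.Agent.Y294.ET

open Finset Pool.Agent.W307.RT WeierstrassCurve

/-- a double of a point minus a root is a square -/
lemma double_sq {A B : ℤ} {P : (Sh A B).toAffine.Point} {X Y : ℚ}
    {h : (Sh A B).toAffine.Nonsingular X Y} (hP : P + P = .some _ _ h) {e : ℚ}
    (he : e ^ 3 + A * e + B = 0) :
    ∃ x y : ℚ, y ≠ 0 ∧ y ^ 2 = x ^ 3 + A * x + B ∧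
      X - e = (((x - e) ^ 2 - (3 * e ^ 2 + A)) / (2 * y)) ^ 2 := by
  match P, hP with
  | .zero, hP =>
    exfalso
    have h0 : (Affine.Point.zero : (Sh A B).toAffine.Point) = 0 := rfl
    rw [h0, add_zero] at hP
    exact Affine.Point.some_ne_zero h hP.symm
  | .some x y hxy, hP =>
    have heq : y ^ 2 = x ^ 3 + A * x + B := by
      have := hxy.1
      rw [Affine.equation_iff] at this
      simp only [Sh] at this
      linear_combination this
    by_cases hy : y = 0
    · exfalso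
      have h1 : (Affine.Point.some x y hxy : (Sh A B).toAffine.Point) + .some x y hxy = 0 := by
        apply Affine.Point.add_self_of_Y_eq
        rw [Pool.Agent.W29.RT.neg_y, hy]
        simp
      rw [h1] at hP
      exact Affine.Point.some_ne_zero h hP.symm
    · refine ⟨x, y, hy, heq, ?_⟩
      have hne : y ≠ (Sh A B).toAffine.negY x y := by
        rw [Pool.Agent.W29.RT.neg_y]
        intro h1
        apply hy
        linarith
      have hsl : (Sh A B).toAffine.slope x x y y = (3 * x ^ 2 + A) / (2 * y) := by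
        rw [Affine.slope_of_Y_ne rfl hne, Pool.Agent.W29.RT.neg_y]
        simp only [Sh]
        congr 1
        · ring
        · ring
      rw [Affine.Point.add_self_of_Y_ne hne, Affine.Point.some.injEq, hsl] at hP
      have hX := hP.1
      simp only [Affine.addX, Sh] at hX
      rw [← hX]
      have hB : (B : ℚ) = -(e ^ 3 + A * e) := by linarith
      have h4 : (2 * y) ^ 2 ≠ 0 := pow_ne_zero 2 (mul_ne_zero two_ne_zero hy)
      have h5 : (4 : ℚ) * y ^ 2 = 4 * (x ^ 3 + A * x - (e ^ 3 + A * e)) := by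
        rw [heq, hB]; ring
      rw [div_pow, div_pow, eq_div_iff h4]
      have h6 : (3 * x ^ 2 + (A : ℚ)) ^ 2 / (2 * y) ^ 2 * (2 * y) ^ 2 = (3 * x ^ 2 + (A : ℚ)) ^ 2 :=
        div_mul_cancel₀ _ h4
      have h7 : (2 * y) ^ 2 = 4 * (x ^ 3 + A * x - (e ^ 3 + A * e)) := by
        rw [← h5]; ring
      have h8 : ((3 * x ^ 2 + (A : ℚ)) ^ 2 / (2 * y) ^ 2 - 2 * x - e) * (2 * y) ^ 2 =
          (3 * x ^ 2 + (A : ℚ)) ^ 2 - (2 * x + e) * (2 * y) ^ 2 := by
        rw [sub_mul, sub_mul, h6]; ring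
      calc _ = ((3 * x ^ 2 + (A : ℚ)) ^ 2 / (2 * y) ^ 2 - 2 * x - e) * (2 * y) ^ 2 := by ring
        _ = _ := by rw [h8, h7]; ring

/-- **No point of order 8.** -/
theorem no8 {A B : ℤ} {a b : ℕ} (hb : 1 ≤ b) (hab : b < a) (hc : a.Coprime b)
    (hsq : ¬ (IsSquare a ∧ IsSquare b))
    (hA : A = -27 * ((a : ℤ) ^ 4 - (a : ℤ) ^ 2 * (b : ℤ) ^ 2 + (b : ℤ) ^ 4))
    (hB : B = 27 * (((a : ℤ) ^ 2 + (b : ℤ) ^ 2) * (2 * (a : ℤ) ^ 2 - (b : ℤ) ^ 2) *
      ((a : ℤ) ^ 2 - 2 * (b : ℤ) ^ 2)))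
    (P : (Sh A B).toAffine.Point) : addOrderOf P ≠ 8 := by
  intro hP8
  have hA' : (A : ℚ) = -27 * ((a : ℚ) ^ 4 - (a : ℚ) ^ 2 * (b : ℚ) ^ 2 + (b : ℚ) ^ 4) := by
    rw [hA]; push_cast; ring
  have hB' : (B : ℚ) = 27 * (((a : ℚ) ^ 2 + (b : ℚ) ^ 2) * (2 * (a : ℚ) ^ 2 - (b : ℚ) ^ 2) *
      ((a : ℚ) ^ 2 - 2 * (b : ℚ) ^ 2)) := by
    rw [hB]; push_cast; ring
  have hbQ : (0 : ℚ) < b := by exact_mod_cast hb
  have haQ : (0 : ℚ) < a := by exact_mod_cast (by omega : 0 < a)
  have habQ : (b : ℚ) < a := by exact_mod_cast hab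
  -- the roots
  set e1 : ℚ := 3 * ((a : ℚ) ^ 2 + (b : ℚ) ^ 2) with he1
  set e2 : ℚ := 3 * (b : ℚ) ^ 2 - 6 * (a : ℚ) ^ 2 with he2
  set e3 : ℚ := 3 * (a : ℚ) ^ 2 - 6 * (b : ℚ) ^ 2 with he3
  have r1 : e1 ^ 3 + A * e1 + B = 0 := by rw [hA', hB', he1]; ring
  -- `Q = 2 P` has order 4 and `R = 2 Q` has order 2
  set Q := P + P with hQ
  set R := Q + Q with hR
  have h2P : 2 • P = Q := two_nsmul P
  have h4P : 4 • P = R := by
    have : (4 : ℕ) • P = 2 • (2 • P) := by rw [← mul_nsmul]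
    rw [this, h2P, two_nsmul]
  have h8P : R + R = 0 := by
    have : (8 : ℕ) • P = 2 • (4 • P) := by rw [← mul_nsmul]
    rw [← two_nsmul, ← h4P, ← this, ← hP8]
    exact addOrderOf_nsmul_eq_zero P
  have hR0 : R ≠ 0 := by
    intro h
    have h1 : addOrderOf P ∣ 4 := addOrderOf_dvd_of_nsmul_eq_zero (by rw [h4P, h])
    rw [hP8] at h1
    omega
  have hQ0 : Q ≠ 0 := by
    intro h
    apply hR0
    rw [hR, h, add_zero]
  -- coordinates of `R` and `Q`
  obtain ⟨X, Y, hXY, hRe⟩ : ∃ X Y, ∃ h : (Sh A B).toAffine.Nonsingular X Y, R = .some _ _ h := by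
    match hR' : R with
    | .zero => exact absurd rfl hR0
    | .some X Y h => exact ⟨X, Y, h, rfl⟩
  obtain ⟨X', Y', hXY', hQe⟩ : ∃ X Y, ∃ h : (Sh A B).toAffine.Nonsingular X Y, Q = .some _ _ h := by
    match hQ' : Q with
    | .zero => exact absurd rfl hQ0
    | .some X Y h => exact ⟨X, Y, h, rfl⟩
  have hXeq : Y ^ 2 = X ^ 3 + A * X + B := by
    have := hXY.1
    rw [Affine.equation_iff] at this
    simp only [Sh] at this
    linear_combination this
  -- `Y = 0`
  have hY : Y = 0 := by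
    by_contra hY
    have hne : Y ≠ (Sh A B).toAffine.negY X Y := by
      rw [Pool.Agent.W29.RT.neg_y]
      intro h1
      apply hY
      linarith
    rw [hRe, Affine.Point.add_self_of_Y_ne hne] at h8P
    exact Affine.Point.some_ne_zero _ h8P
  -- `X` is a root
  have hXroot : (X - e1) * (X - e2) * (X - e3) = 0 := by
    have h1 : X ^ 3 + A * X + B = 0 := by rw [← hXeq, hY]; ring
    rw [hA', hB'] at h1
    rw [he1, he2, he3]
    linear_combination h1
  have hRd : Q + Q = .some _ _ hXY := hRe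
  obtain ⟨x1, y1, hy1, -, hs1⟩ := double_sq hRd r1
  have hXge : e1 ≤ X := by
    have : 0 ≤ X - e1 := by rw [hs1]; positivity
    linarith
  have hX1 : X = e1 := by
    rcases mul_eq_zero.1 hXroot with h | h
    · rcases mul_eq_zero.1 h with h | h
      · linarith
      · exfalso
        have : X = e2 := by linarith
        rw [this, he1, he2] at hXge
        nlinarith
    · exfalso
      have : X = e3 := by linarith
      rw [this, he1, he3] at hXge
      nlinarith
  -- the doubling formula for `Q` itself: its `x`-coordinate satisfies a quadratic equation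
  have hQd : (Affine.Point.some X' Y' hXY' : (Sh A B).toAffine.Point) + .some X' Y' hXY' =
      .some _ _ hXY := by rw [← hQe]; exact hRe
  have hquad : (X' - e1) ^ 2 = 81 * (a : ℚ) ^ 2 * (b : ℚ) ^ 2 := by
    -- repeat the computation with the explicit point
    have hY' : Y' ≠ 0 := by
      intro h0
      have h1 : (Affine.Point.some X' Y' hXY' : (Sh A B).toAffine.Point) + .some X' Y' hXY' = 0 := by
        apply Affine.Point.add_self_of_Y_eq
        rw [Pool.Agent.W29.RT.neg_y, h0]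
        simp
      rw [h1] at hQd
      exact Affine.Point.some_ne_zero hXY hQd.symm
    have heq : Y' ^ 2 = X' ^ 3 + A * X' + B := by
      have := hXY'.1
      rw [Affine.equation_iff] at this
      simp only [Sh] at this
      linear_combination this
    have hne : Y' ≠ (Sh A B).toAffine.negY X' Y' := by
      rw [Pool.Agent.W29.RT.neg_y]
      intro h1
      apply hY'
      linarith
    have hsl : (Sh A B).toAffine.slope X' X' Y' Y' = (3 * X' ^ 2 + A) / (2 * Y') := by
      rw [Affine.slope_of_Y_ne rfl hne, Pool.Agent.W29.RT.neg_y]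
      simp only [Sh]
      congr 1
      · ring
      · ring
    rw [Affine.Point.add_self_of_Y_ne hne, Affine.Point.some.injEq, hsl] at hQd
    have hX := hQd.1
    simp only [Affine.addX, Sh] at hX
    rw [hX1] at hX
    have h4 : (2 * Y') ^ 2 ≠ 0 := pow_ne_zero 2 (mul_ne_zero two_ne_zero hY')
    have h5 : (3 * X' ^ 2 + (A : ℚ)) ^ 2 = (2 * X' + e1) * (2 * Y') ^ 2 := by
      have h6 : (3 * X' ^ 2 + (A : ℚ)) ^ 2 / (2 * Y') ^ 2 = 2 * X' + e1 := by
        rw [← div_pow]
        linear_combination hX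
      rwa [div_eq_iff h4] at h6
    have h7 : ((X' - e1) ^ 2 - (3 * e1 ^ 2 + A)) ^ 2 = 0 := by
      have h8 : (2 * Y') ^ 2 = 4 * (X' ^ 3 + A * X' + B) := by rw [← heq]; ring
      rw [h8] at h5
      have hB2 : (B : ℚ) = -(e1 ^ 3 + A * e1) := by linarith
      rw [hB2] at h5
      linear_combination h5
    have h9 := pow_eq_zero_iff (two_ne_zero) |>.1 h7
    have h10 : (X' - e1) ^ 2 = 3 * e1 ^ 2 + A := by linarith
    rw [h10, hA', he1]
    ring
  -- `X' - e1` is a square
  have hPd : P + P = .some _ _ hXY' := hQe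
  obtain ⟨x2, y2, hy2, -, hs2⟩ := double_sq hPd r1
  set s := ((x2 - e1) ^ 2 - (3 * e1 ^ 2 + A)) / (2 * y2) with hs
  have hnn : 0 ≤ X' - e1 := by rw [hs2]; positivity
  have hval : X' - e1 = 9 * a * b := by
    have h1 : (X' - e1) ^ 2 = (9 * (a : ℚ) * b) ^ 2 := by rw [hquad]; ring
    exact (sq_eq_sq₀ hnn (by positivity)).1 h1
  -- so `a b` is a square
  have hsqQ : IsSquare ((a * b : ℕ) : ℚ) := by
    refine ⟨s / 3, ?_⟩
    have h1 : s ^ 2 = 9 * a * b := by rw [← hs2, hval]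
    push_cast
    linear_combination (-(1 : ℚ) / 9) * h1
  have hsqN : IsSquare (a * b) := Rat.isSquare_natCast_iff.1 hsqQ
  apply hsq
  obtain ⟨t, ht⟩ := hsqN
  have ht2 : a * b = t ^ 2 := by rw [ht]; ring
  constructor
  · obtain ⟨d, hd⟩ := exists_eq_pow_of_mul_eq_pow (a := a) (b := b)
      (by rw [Nat.isUnit_iff]; exact hc) ht2
    exact ⟨d, by rw [hd]; ring⟩
  · obtain ⟨d, hd⟩ := exists_eq_pow_of_mul_eq_pow (a := b) (b := a)
      (by rw [Nat.isUnit_iff]; exact hc.symm) (by rw [mul_comm]; exact ht2)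
    exact ⟨d, by rw [hd]; ring⟩

end Pool.Agent.Y294.ET
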