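import Mathlib
import Pool.Agent.Y294.ET.No8
import Pool.Agent.W307.RT.Box

/-!
# Many curves with a subgroup `Z/2 x Z/4` have no point of order 8; averages over subfamilies
-/

set_option autoImplicit false

namespace Pool.Agent.Y294.ET

open Finset Pool.Agent.W262.RK Pool.Agent.W307.RT WeierstrassCurve

/-- no point of order 8 -/
def No8 (c : ℤ × ℤ) : Prop := ∀ P : (Sh c.1 c.2).toAffine.Point, addOrderOf P ≠ 8

open Classical in
/-- the curves of `Cv 4` without a point of order 8 -/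
noncomputable def G8 (H : ℕ) : Finset (ℤ × ℤ) := (Cv 4 H).filter (fun c => No8 c)

lemma G8_sub (H : ℕ) : G8 H ⊆ Cv 4 H := by
  classical
  intro c hc
  unfold G8 at hc
  exact (mem_filter.1 hc).1

open Classical in
lemma card_squares (T : ℕ) :
    ((Pool.Agent.W29.RT.SS T).filter (fun t => IsSquare t.1 ∧ IsSquare t.2)).card ≤
      (Nat.sqrt T + 1) ^ 2 := by
  have h1 : ((Pool.Agent.W29.RT.SS T).filter (fun t => IsSquare t.1 ∧ IsSquare t.2)).card ≤
      ((range (Nat.sqrt T + 1)) ×ˢ (range (Nat.sqrt T + 1))).card := by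
    apply card_le_card_of_injOn (fun t => (Nat.sqrt t.1, Nat.sqrt t.2))
    · intro t ht
      have ht' := mem_filter.1 ht
      have h2 := ht'.1
      unfold Pool.Agent.W29.RT.SS at h2
      rw [mem_sigma, mem_Icc, mem_filter, mem_range] at h2
      obtain ⟨⟨k1, k2⟩, k3, k4⟩ := h2
      have h3 : Nat.sqrt t.1 ≤ Nat.sqrt T := Nat.sqrt_le_sqrt k2
      have h4 : Nat.sqrt t.2 ≤ Nat.sqrt T := Nat.sqrt_le_sqrt (by omega)
      have : (Nat.sqrt t.1, Nat.sqrt t.2) ∈ (range (Nat.sqrt T + 1)) ×ˢ (range (Nat.sqrt T + 1)) := by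
        rw [mem_product, mem_range, mem_range]
        exact ⟨by simp only; omega, by simp only; omega⟩
      exact this
    · intro t ht t' ht' h
      have ht1 := (mem_filter.1 ht).2
      have ht1' := (mem_filter.1 ht').2
      simp only [Prod.mk.injEq] at h
      obtain ⟨u1, hu1⟩ := ht1.1
      obtain ⟨u2, hu2⟩ := ht1.2
      obtain ⟨w1, hw1⟩ := ht1'.1
      obtain ⟨w2, hw2⟩ := ht1'.2
      rw [hu1, hw1, Nat.sqrt_eq, Nat.sqrt_eq] at h
      rw [hu2, hw2, Nat.sqrt_eq, Nat.sqrt_eq] at h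
      have e1 : t.1 = t'.1 := by rw [hu1, hw1, h.1]
      have e2 : t.2 = t'.2 := by rw [hu2, hw2, h.2]
      exact Sigma.ext e1 (heq_of_eq e2)
  rw [card_product, card_range] at h1
  calc _ ≤ _ := h1
    _ = _ := by ring

/-- there are many curves without a point of order 8 -/
theorem low8 : ∃ (c : ℝ) (C T0 : ℕ), 0 < c ∧ ∀ T H : ℕ, T0 ≤ T → C * T ^ 12 ≤ H →
    c * (T : ℝ) ^ 2 ≤ ((G8 H).card : ℝ) := by
  classical
  refine ⟨1 / 48, 2000000, 192, by norm_num, fun T H hT hH => ?_⟩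
  set S := (Pool.Agent.W29.RT.SS T).filter (fun t => ¬ (IsSquare t.1 ∧ IsSquare t.2)) with hS
  have h1 : S.card ≤ (G8 H).card := by
    apply card_le_card_of_injOn (fun t => Pool.Agent.W29.RT.cf (t.1, t.2))
    · intro t ht
      have ht0 := mem_filter.1 ht
      have ht' := ht0.1
      unfold Pool.Agent.W29.RT.SS at ht'
      rw [mem_sigma, mem_Icc, mem_filter, mem_range] at ht'
      obtain ⟨⟨k1, k2⟩, k3, k4⟩ := ht'
      have hb : 1 ≤ t.2 := by
        rcases Nat.eq_zero_or_pos t.2 with h | h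
        · rw [h, Nat.coprime_zero_right] at k4; omega
        · exact h
      have : Pool.Agent.W29.RT.cf (t.1, t.2) ∈ G8 H := by
        unfold G8
        rw [mem_filter]
        refine ⟨Pool.Agent.W29.RT.mem_cv hb k3 k2 k4 hH, fun P => ?_⟩
        exact no8 hb k3 k4 ht0.2 rfl rfl P
      exact this
    · intro t ht t' ht' h
      have ht1 := (mem_filter.1 ht).1
      have ht1' := (mem_filter.1 ht').1
      unfold Pool.Agent.W29.RT.SS at ht1 ht1'
      rw [mem_sigma, mem_Icc, mem_filter, mem_range] at ht1 ht1'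
      obtain ⟨⟨k1, k2⟩, k3, k4⟩ := ht1
      obtain ⟨⟨k1', k2'⟩, k3', k4'⟩ := ht1'
      have hb : 1 ≤ t.2 := by
        rcases Nat.eq_zero_or_pos t.2 with h | h
        · rw [h, Nat.coprime_zero_right] at k4; omega
        · exact h
      have hb' : 1 ≤ t'.2 := by
        rcases Nat.eq_zero_or_pos t'.2 with h | h
        · rw [h, Nat.coprime_zero_right] at k4'; omega
        · exact h
      have h' : Pool.Agent.W29.RT.cf (t.1, t.2) = Pool.Agent.W29.RT.cf (t'.1, t'.2) := h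
      simp only [Pool.Agent.W29.RT.cf, Prod.mk.injEq] at h'
      obtain ⟨e1, e2⟩ := Pool.Agent.W29.RT.cf_inj (by exact_mod_cast hb) (by exact_mod_cast k3)
        (by exact_mod_cast hb') (by exact_mod_cast k3') h'.1 h'.2
      have e1' : t.1 = t'.1 := by exact_mod_cast e1
      have e2' : t.2 = t'.2 := by exact_mod_cast e2
      exact Sigma.ext e1' (heq_of_eq e2')
  have h2 := Pool.Agent.W29.RT.card_SS T (by omega)
  have h3 := card_squares T
  have h4 : ((Pool.Agent.W29.RT.SS T).filter (fun t => IsSquare t.1 ∧ IsSquare t.2)).card + S.card =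
      (Pool.Agent.W29.RT.SS T).card := card_filter_add_card_filter_not _
  have h5 : (Nat.sqrt T + 1) ^ 2 ≤ 4 * T := by
    have a1 : Nat.sqrt T * Nat.sqrt T ≤ T := Nat.sqrt_le T
    have a2 : Nat.sqrt T ≤ T := Nat.sqrt_le_self T
    have a3 : 1 ≤ T := by omega
    nlinarith
  have h6 : T ^ 2 ≤ 48 * S.card := by nlinarith
  have h7 : (T : ℝ) ^ 2 ≤ 48 * (S.card : ℝ) := by exact_mod_cast h6
  have h8 : (S.card : ℝ) ≤ ((G8 H).card : ℝ) := by exact_mod_cast h1
  linarith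

/-- From the box to a subfamily of the curves. -/
lemma final_sub {m k : ℕ} {M N : ℤ → ℤ → ℤ} (hk : 1 ≤ k) (hP : PAR m k M N)
    (G : ℕ → Finset (ℤ × ℤ)) (hG : ∀ H, G H ⊆ Cv m H)
    (hL : ∃ (c : ℝ) (C T0 : ℕ), 0 < c ∧ ∀ T H : ℕ, T0 ≤ T → C * T ^ k ≤ H →
      c * (T : ℝ) ^ 2 ≤ ((G H).card : ℝ))
    (hbox : ∃ C : ℝ, 0 ≤ C ∧ ∀ T : ℕ, 1 ≤ T → ∑ t ∈ (Box T).filter (fun t : ℤ × ℤ =>
      IsCoprime t.1 t.2 ∧ M t.1 t.2 ≠ 0 ∧ N t.1 t.2 ≠ 0 ∧ M t.1 t.2 ≠ N t.1 t.2),
      (2 : ℝ) ^ Module.finrank ℤ (EAB (-(M t.1 t.2)) (-(N t.1 t.2))).toAffine.Point ≤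
        C * (T : ℝ) ^ 2) :
    ∃ C : ℝ, ∀ H : ℕ, (∑ c ∈ G H,
      (2 : ℝ) ^ Module.finrank ℤ (Sh c.1 c.2).toAffine.Point ≤ C * (G H).card) ∧
      ((G H).Nonempty → ((Cv m H).card : ℝ) ≤ C * (G H).card) := by
  classical
  obtain ⟨C0', F, hF⟩ := hP
  obtain ⟨c, C1, T0, hc, hlow⟩ := hL
  obtain ⟨C, hC, hb⟩ := hbox
  set C0 := C0' + 1 with hC0
  have hF' : ∀ H : ℕ, ∀ x ∈ Cv m H, (F x).1.natAbs ^ k ≤ C0 * H ∧ (F x).2.natAbs ^ k ≤ C0 * H := by
    intro H x hx
    obtain ⟨_, _, _, _, h1, h2, _⟩ := (hF H).2 x hx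
    have : C0' * H ≤ C0 * H := Nat.mul_le_mul_right _ (by omega)
    exact ⟨h1.trans this, h2.trans this⟩
  set D := C0 * C1 + 1 with hD
  have hD1 : 1 ≤ D := by omega
  -- the sum is at most `C T ^ 2`
  have hsum : ∀ H T : ℕ, 1 ≤ T → (∀ x ∈ Cv m H, (F x).1.natAbs ≤ T ∧ (F x).2.natAbs ≤ T) →
      ∑ x ∈ Cv m H, (2 : ℝ) ^ Module.finrank ℤ (Sh x.1 x.2).toAffine.Point ≤ C * (T : ℝ) ^ 2 := by
    intro H T hT hx
    refine le_trans ?_ (hb T hT)
    obtain ⟨hinj, h2⟩ := hF H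
    have h3 : ∑ x ∈ Cv m H, (2 : ℝ) ^ Module.finrank ℤ (Sh x.1 x.2).toAffine.Point =
        ∑ t ∈ (Cv m H).image F, (2 : ℝ) ^ Module.finrank ℤ
          (EAB (-(M t.1 t.2)) (-(N t.1 t.2))).toAffine.Point := by
      rw [sum_image hinj]
      apply sum_congr rfl
      intro x hx'
      obtain ⟨_, _, _, _, _, _, h4⟩ := h2 x hx'
      rw [h4]
    rw [h3]
    apply sum_le_sum_of_subset_of_nonneg
    · intro t ht
      obtain ⟨x, hx', rfl⟩ := mem_image.1 ht
      obtain ⟨a1, a2, a3, a4, _, _, _⟩ := h2 x hx'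
      rw [mem_filter, mem_Box]
      exact ⟨hx x hx', a1, a2, a3, a4⟩
    · intro t _ _
      positivity
  -- the sum over `Cv` is at most a constant times the number of the curves of `G`
  have main : ∃ D0 : ℝ, ∀ H : ℕ, (G H).Nonempty → ∑ x ∈ Cv m H,
      (2 : ℝ) ^ Module.finrank ℤ (Sh x.1 x.2).toAffine.Point ≤ D0 * (G H).card := by
    refine ⟨C * ((D * (T0 + 1) : ℕ) : ℝ) ^ 2 + C * (2 * (D : ℝ)) ^ 2 / c, fun H hne => ?_⟩
    set K := (G H).card with hK
    have hK1 : (1 : ℝ) ≤ K := by exact_mod_cast Finset.card_pos.2 hne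
    have hq0 : 0 ≤ C * (2 * (D : ℝ)) ^ 2 / c := by positivity
    have hr0 : 0 ≤ C * ((D * (T0 + 1) : ℕ) : ℝ) ^ 2 := by positivity
    set T := Nat.findGreatest (fun t => t ^ k ≤ C0 * H) (C0 * H) with hT
    have hle : ∀ x : ℕ, x ^ k ≤ C0 * H → x ≤ T := by
      intro x hx
      apply Nat.le_findGreatest
      · exact (Nat.le_self_pow (by omega) x).trans hx
      · exact hx
    have hTk : T ^ k ≤ C0 * H := by
      have : (fun t => t ^ k ≤ C0 * H) T :=
        Nat.findGreatest_spec (P := fun t => t ^ k ≤ C0 * H) (Nat.zero_le _)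
          (by rw [zero_pow (by omega)]; exact Nat.zero_le _)
      exact this
    have hxT : ∀ x ∈ Cv m H, (F x).1.natAbs ≤ T ∧ (F x).2.natAbs ≤ T := fun x hx =>
      ⟨hle _ (hF' H x hx).1, hle _ (hF' H x hx).2⟩
    rcases Nat.lt_or_ge T (D * (T0 + 1)) with hlt | hge
    · have h1 := hsum H (D * (T0 + 1)) (Nat.mul_pos hD1 (Nat.succ_pos _)) fun x hx =>
        ⟨(hxT x hx).1.trans hlt.le, (hxT x hx).2.trans hlt.le⟩
      calc _ ≤ C * ((D * (T0 + 1) : ℕ) : ℝ) ^ 2 := h1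
        _ ≤ C * ((D * (T0 + 1) : ℕ) : ℝ) ^ 2 * K := le_mul_of_one_le_right hr0 hK1
        _ ≤ _ := by
          apply mul_le_mul_of_nonneg_right _ (by linarith)
          linarith
    · have hT1 : 1 ≤ T := (Nat.mul_pos hD1 (Nat.succ_pos _)).trans_le hge
      have h1 := hsum H T hT1 hxT
      set T' := T / D with hT'
      have hT'0 : T0 + 1 ≤ T' := by
        rw [hT', Nat.le_div_iff_mul_le hD1, mul_comm]
        exact hge
      have h2 : T' * D ≤ T := Nat.div_mul_le_self T D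
      have h3 : C1 * T' ^ k ≤ H := by
        have a1 : (T' * D) ^ k ≤ C0 * H := (Nat.pow_le_pow_left h2 k).trans hTk
        rw [mul_pow] at a1
        have a2 : D ≤ D ^ k := Nat.le_self_pow (by omega) D
        have a3 : T' ^ k * (C0 * C1) ≤ C0 * H :=
          (Nat.mul_le_mul_left _ (by omega : C0 * C1 ≤ D ^ k)).trans a1
        have a4 : C0 * (C1 * T' ^ k) ≤ C0 * H := by
          calc C0 * (C1 * T' ^ k) = T' ^ k * (C0 * C1) := by ring
            _ ≤ _ := a3
        exact Nat.le_of_mul_le_mul_left a4 (by omega)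
      have h4 := hlow T' H (by omega) h3
      have h5 : T ≤ 2 * D * T' := by
        have a1 : T < D * (T' + 1) := by
          rw [mul_comm]
          exact Nat.lt_mul_of_div_lt (by rw [← hT']; omega) hD1
        have a2 : D * (T' + 1) ≤ 2 * D * T' := by nlinarith
        omega
      have h6 : (T : ℝ) ≤ 2 * D * T' := by exact_mod_cast h5
      calc _ ≤ C * (T : ℝ) ^ 2 := h1
        _ ≤ C * (2 * D * T') ^ 2 := by
          apply mul_le_mul_of_nonneg_left _ hC
          gcongr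
        _ = C * (2 * (D : ℝ)) ^ 2 / c * (c * (T' : ℝ) ^ 2) := by field_simp
        _ ≤ C * (2 * (D : ℝ)) ^ 2 / c * K := mul_le_mul_of_nonneg_left h4 hq0
        _ ≤ _ := by
          apply mul_le_mul_of_nonneg_right _ (by linarith)
          linarith
  obtain ⟨D0, hD0⟩ := main
  refine ⟨D0, fun H => ⟨?_, fun hne => ?_⟩⟩
  · rcases (G H).eq_empty_or_nonempty with he | hne
    · rw [he]; simp
    · refine le_trans ?_ (hD0 H hne)
      apply sum_le_sum_of_subset_of_nonneg (hG H)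
      intro t _ _
      positivity
  · refine le_trans ?_ (hD0 H hne)
    have : ((Cv m H).card : ℝ) = ∑ _x ∈ Cv m H, (1 : ℝ) := by simp
    rw [this]
    apply sum_le_sum
    intro x _
    exact one_le_pow₀ (by norm_num)

end Pool.Agent.Y294.ET
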