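import Mathlib
import Pool.Agent.TH344.DT.Main
import Pool.Agent.W672.FK.Lowf
import Pool.Agent.W135.RT.Par6
import Pool.Agent.W605.RT.PAR4
import Pool.Agent.W307.RT.Tors

/-!
# The curves with torsion group `Z/2 x Z/2`

The lemmas `negl`, `negl4`, `negl6`, `mem_Cv`, `ord_of` are copied from `Pool/Agent/Y667/TS/Main.lean`
(helper667).
-/

set_option autoImplicit false

namespace Pool.Agent.Y294.ET

open Finset Filter Topology Pool.Agent.W262.RK Pool.Agent.W307.RT Pool.Agent.W307.SE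

/-- a family parametrised by pairs of size `≤ (C H) ^ (1 / 12)` is negligible -/
lemma negl {m : ℕ} {C : ℕ} {F : ℤ × ℤ → ℤ × ℤ} (hinj : ∀ H : ℕ, Set.InjOn F (Cv m H : Set (ℤ × ℤ)))
    (hb : ∀ H : ℕ, ∀ c ∈ Cv m H, (F c).1.natAbs ^ 12 ≤ C * H ∧ (F c).2.natAbs ^ 12 ≤ C * H) :
    ∀ ε : ℝ, 0 < ε → ∃ H0 : ℕ, ∀ H : ℕ, H0 ≤ H →
      ((Cv m H).card : ℝ) ≤ ε * ((Cv 2 H).card : ℝ) := by
  intro ε hε
  obtain ⟨c, C2, T0, hc, hlow⟩ := Pool.Agent.W672.FK.lowf
  -- for every `H` the largest `T` with `T ^ 12 ≤ (C + 1) * H`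
  set C1 := C + 1 with hC1
  set K := (C1 * (C2 + 1)) with hK
  have hK1 : 1 ≤ K := Nat.succ_le_of_lt (Nat.mul_pos (by omega) (by omega))
  have hT : ∀ H : ℕ, ∃ T : ℕ, T ^ 12 ≤ C1 * H ∧ C1 * H < (T + 1) ^ 12 := by
    intro H
    refine ⟨Nat.findGreatest (fun T => T ^ 12 ≤ C1 * H) (C1 * H), ?_, ?_⟩
    · exact Nat.findGreatest_spec (P := fun T => T ^ 12 ≤ C1 * H) (Nat.zero_le _) (by simp)
    · by_contra hcon
      push Not at hcon
      have h1 : Nat.findGreatest (fun T => T ^ 12 ≤ C1 * H) (C1 * H) + 1 ≤ C1 * H :=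
        (Nat.le_self_pow (by norm_num) _).trans hcon
      have h2 := Nat.le_findGreatest (P := fun T => T ^ 12 ≤ C1 * H) h1 hcon
      omega
  -- a threshold for `T`
  obtain ⟨T1, hT1⟩ : ∃ T1 : ℕ, ∀ T : ℕ, T1 ≤ T →
      T0 ≤ T ^ 2 / K ∧ (2 * (T : ℝ) + 1) ^ 2 ≤ ε * (c * (((T ^ 2 / K : ℕ) : ℝ)) ^ 2) := by
    obtain ⟨n, hn⟩ := exists_nat_gt (36 * (K : ℝ) ^ 2 / (ε * c))
    refine ⟨n + K * (T0 + 1) + 2, fun T hT => ?_⟩
    have hTpos : 1 ≤ T := by omega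
    have hKT : K * (T0 + 1) ≤ T := by omega
    have hT2 : T ≤ T ^ 2 := by nlinarith
    have hd : T0 + 1 ≤ T ^ 2 / K := by
      rw [Nat.le_div_iff_mul_le (by omega)]
      calc (T0 + 1) * K = K * (T0 + 1) := by ring
        _ ≤ T := hKT
        _ ≤ T ^ 2 := hT2
    refine ⟨by omega, ?_⟩
    have h3 : (T : ℝ) ^ 2 ≤ 2 * K * ((T ^ 2 / K : ℕ) : ℝ) := by
      have h4 : T ^ 2 < (T ^ 2 / K + 1) * K := by
        have := Nat.lt_mul_div_succ (T ^ 2) (show 0 < K by omega)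
        calc T ^ 2 < K * (T ^ 2 / K + 1) := this
          _ = (T ^ 2 / K + 1) * K := by ring
      have h5 : T ^ 2 ≤ 2 * K * (T ^ 2 / K) := by nlinarith
      exact_mod_cast h5
    have hKr : (1 : ℝ) ≤ K := by exact_mod_cast hK1
    have hTr : (1 : ℝ) ≤ T := by exact_mod_cast hTpos
    have hnT : (n : ℝ) ≤ T := by
      have : n ≤ T := by omega
      exact_mod_cast this
    have h6 : (T : ℝ) ^ 4 ≤ 4 * K ^ 2 * (((T ^ 2 / K : ℕ) : ℝ)) ^ 2 := by
      have h0 : (0 : ℝ) ≤ (T : ℝ) ^ 2 := by positivity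
      calc (T : ℝ) ^ 4 = ((T : ℝ) ^ 2) ^ 2 := by ring
        _ ≤ (2 * K * ((T ^ 2 / K : ℕ) : ℝ)) ^ 2 := pow_le_pow_left₀ h0 h3 2
        _ = _ := by ring
    have h7 : 36 * (K : ℝ) ^ 2 ≤ ε * c * (T : ℝ) ^ 2 := by
      have h8 : 36 * (K : ℝ) ^ 2 < n * (ε * c) := by
        rw [div_lt_iff₀ (by positivity)] at hn
        exact hn
      calc 36 * (K : ℝ) ^ 2 ≤ n * (ε * c) := h8.le
        _ ≤ T * (ε * c) := by
          apply mul_le_mul_of_nonneg_right hnT (by positivity)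
        _ ≤ (T : ℝ) ^ 2 * (ε * c) := by
          apply mul_le_mul_of_nonneg_right _ (by positivity)
          nlinarith
        _ = _ := by ring
    have h9 : (2 * (T : ℝ) + 1) ^ 2 ≤ 9 * (T : ℝ) ^ 2 := by nlinarith
    have h10 : 36 * (K : ℝ) ^ 2 * (T : ℝ) ^ 2 ≤
        4 * (K : ℝ) ^ 2 * (ε * (c * (((T ^ 2 / K : ℕ) : ℝ)) ^ 2)) := by
      calc 36 * (K : ℝ) ^ 2 * (T : ℝ) ^ 2 ≤ (ε * c * (T : ℝ) ^ 2) * (T : ℝ) ^ 2 := by
            apply mul_le_mul_of_nonneg_right h7 (by positivity)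
        _ = ε * c * (T : ℝ) ^ 4 := by ring
        _ ≤ ε * c * (4 * K ^ 2 * (((T ^ 2 / K : ℕ) : ℝ)) ^ 2) := by
            apply mul_le_mul_of_nonneg_left h6 (by positivity)
        _ = _ := by ring
    have h11 : 9 * (T : ℝ) ^ 2 ≤ ε * (c * (((T ^ 2 / K : ℕ) : ℝ)) ^ 2) := by
      have h12 : (0 : ℝ) < 4 * (K : ℝ) ^ 2 := by positivity
      have h13 : 4 * (K : ℝ) ^ 2 * (9 * (T : ℝ) ^ 2) ≤
          4 * (K : ℝ) ^ 2 * (ε * (c * (((T ^ 2 / K : ℕ) : ℝ)) ^ 2)) := by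
        calc 4 * (K : ℝ) ^ 2 * (9 * (T : ℝ) ^ 2) = 36 * (K : ℝ) ^ 2 * (T : ℝ) ^ 2 := by ring
          _ ≤ _ := h10
      exact le_of_mul_le_mul_left h13 h12
    exact h9.trans h11
  refine ⟨(T1 + 1) ^ 12, fun H hH => ?_⟩
  obtain ⟨T, hTa, hTb⟩ := hT H
  have hTT : T1 ≤ T := by
    by_contra hcon
    push Not at hcon
    have h1 : (T + 1) ^ 12 ≤ (T1 + 1) ^ 12 := Nat.pow_le_pow_left (by omega) 12
    have h2 : H ≤ C1 * H := Nat.le_mul_of_pos_left H (by omega)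
    omega
  obtain ⟨k1, k2⟩ := hT1 T hTT
  have h3 : (Cv m H).card ≤ (2 * T + 1) ^ 2 := by
    have h4 : ((Cv m H).image F) ⊆ (Icc (-(T : ℤ)) T) ×ˢ (Icc (-(T : ℤ)) T) := by
      intro t ht
      obtain ⟨x, hx, rfl⟩ := mem_image.1 ht
      obtain ⟨b1, b2⟩ := hb H x hx
      have e : ∀ y : ℤ, y.natAbs ^ 12 ≤ C * H → -(T : ℤ) ≤ y ∧ y ≤ T := by
        intro y hy
        have h5 : y.natAbs < T + 1 := by
          refine lt_of_pow_lt_pow_left₀ 12 (by omega) (lt_of_le_of_lt hy (lt_of_le_of_lt ?_ hTb))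
          exact Nat.mul_le_mul_right H (by omega)
        omega
      rw [mem_product, mem_Icc, mem_Icc]
      exact ⟨e _ b1, e _ b2⟩
    have h5 : (Cv m H).card = ((Cv m H).image F).card := (card_image_of_injOn (hinj H)).symm
    rw [h5]
    refine (card_le_card h4).trans ?_
    rw [card_product, Int.card_Icc]
    have : ((T : ℤ) + 1 - -(T : ℤ)).toNat = 2 * T + 1 := by omega
    rw [this]
    exact le_of_eq (by ring)
  have h6 : c * ((T ^ 2 / K : ℕ) : ℝ) ^ 2 ≤ ((Cv 2 H).card : ℝ) := by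
    refine hlow _ H k1 ?_
    have h7 : (T ^ 2 / K) * K ≤ T ^ 2 := Nat.div_mul_le_self _ _
    have h8 : ((T ^ 2 / K) * K) ^ 6 ≤ C1 * H := by
      calc ((T ^ 2 / K) * K) ^ 6 ≤ (T ^ 2) ^ 6 := Nat.pow_le_pow_left h7 6
        _ = T ^ 12 := by ring
        _ ≤ C1 * H := hTa
    have h9 : K ≤ K ^ 6 := Nat.le_self_pow (by norm_num) K
    have h10 : (T ^ 2 / K) ^ 6 * (C1 * (C2 + 1)) ≤ C1 * H := by
      calc (T ^ 2 / K) ^ 6 * (C1 * (C2 + 1)) = (T ^ 2 / K) ^ 6 * K := by rw [hK]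
        _ ≤ (T ^ 2 / K) ^ 6 * K ^ 6 := Nat.mul_le_mul_left _ h9
        _ = ((T ^ 2 / K) * K) ^ 6 := by ring
        _ ≤ C1 * H := h8
    have h11 : C1 * ((C2 + 1) * (T ^ 2 / K) ^ 6) ≤ C1 * H := by
      calc C1 * ((C2 + 1) * (T ^ 2 / K) ^ 6) = (T ^ 2 / K) ^ 6 * (C1 * (C2 + 1)) := by ring
        _ ≤ _ := h10
    have h12 : (C2 + 1) * (T ^ 2 / K) ^ 6 ≤ H := Nat.le_of_mul_le_mul_left h11 (by omega)
    calc C2 * (T ^ 2 / K) ^ 6 ≤ (C2 + 1) * (T ^ 2 / K) ^ 6 := Nat.mul_le_mul_right _ (by omega)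
      _ ≤ H := h12
  calc ((Cv m H).card : ℝ) ≤ (2 * (T : ℝ) + 1) ^ 2 := by exact_mod_cast h3
    _ ≤ ε * (c * (((T ^ 2 / K : ℕ) : ℝ)) ^ 2) := k2
    _ ≤ ε * ((Cv 2 H).card : ℝ) := mul_le_mul_of_nonneg_left h6 hε.le

lemma negl4 : ∀ ε : ℝ, 0 < ε → ∃ H0 : ℕ, ∀ H : ℕ, H0 ≤ H →
    ((Cv 4 H).card : ℝ) ≤ ε * ((Cv 2 H).card : ℝ) := by
  obtain ⟨C, F, h⟩ := Pool.Agent.W605.RT.par4_of Pool.Agent.W261.RT.iso
  exact negl (C := C) (F := F) (fun H => (h H).1) fun H c hc =>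
    ⟨((h H).2 c hc).2.2.2.2.1, ((h H).2 c hc).2.2.2.2.2.1⟩

lemma negl6 : ∀ ε : ℝ, 0 < ε → ∃ H0 : ℕ, ∀ H : ℕ, H0 ≤ H →
    ((Cv 6 H).card : ℝ) ≤ ε * ((Cv 2 H).card : ℝ) := by
  obtain ⟨C, F, h⟩ := Pool.Agent.W135.RT.par6_of Pool.Agent.W261.RT.iso
  have e : ∀ (y : ℕ) (n : ℕ), y ^ 24 ≤ n → y ^ 12 ≤ n := by
    intro y n hy
    rcases Nat.eq_zero_or_pos y with rfl | hy0
    · simp
    · exact (Nat.pow_le_pow_right hy0 (by norm_num)).trans hy
  exact negl (C := C) (F := F) (fun H => (h H).1) fun H c hc =>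
    ⟨e _ _ ((h H).2 c hc).2.2.2.2.1, e _ _ ((h H).2 c hc).2.2.2.2.2.1⟩

lemma mem_Cv {c : ℤ × ℤ} {m H : ℕ} (hc : c ∈ Cv 2 H) (h : HasT m (Sh c.1 c.2)) : c ∈ Cv m H := by
  classical
  unfold Cv at hc ⊢
  rw [mem_filter] at hc ⊢
  exact ⟨hc.1, hc.2.1, hc.2.2.1, hc.2.2.2.1, hc.2.2.2.2.1, h⟩

/-- no element of order 3 or 4 -/
lemma ord_of {G : Type} [AddCommGroup G]
    (h2 : ∃ P Q : G, addOrderOf P = 2 ∧ addOrderOf Q = 2 ∧ Q ∉ AddSubgroup.zmultiples P)
    (h4 : ¬ ∃ P Q : G, addOrderOf P = 4 ∧ addOrderOf Q = 2 ∧ Q ∉ AddSubgroup.zmultiples P)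
    (h6 : ¬ ∃ P Q : G, addOrderOf P = 6 ∧ addOrderOf Q = 2 ∧ Q ∉ AddSubgroup.zmultiples P) :
    ∀ R : G, addOrderOf R ≠ 4 ∧ addOrderOf R ≠ 3 := by
  classical
  obtain ⟨P, Q, hP, hQ, hPQ⟩ := h2
  -- there is no element of order 4
  have n4 : ∀ R : G, addOrderOf R ≠ 4 := by
    intro R hR
    by_cases hPR : P ∈ AddSubgroup.zmultiples R
    · by_cases hQR : Q ∈ AddSubgroup.zmultiples R
      · -- a cyclic group has only one element of order two
        have key : ∀ X : G, addOrderOf X = 2 → X ∈ AddSubgroup.zmultiples R → X = 2 • R := by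
          intro X hX hXR
          obtain ⟨k, rfl⟩ := AddSubgroup.mem_zmultiples_iff.1 hXR
          have h1 : (2 : ℤ) • (k • R) = 0 := by
            have := addOrderOf_nsmul_eq_zero (k • R)
            rw [hX] at this
            exact_mod_cast this
          rw [smul_smul, ← addOrderOf_dvd_iff_zsmul_eq_zero, hR] at h1
          have h2 : k • R ≠ 0 := by
            intro h
            rw [h, addOrderOf_zero] at hX
            omega
          have h3 : ¬ ((addOrderOf R : ℕ) : ℤ) ∣ k := by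
            intro h
            exact h2 (addOrderOf_dvd_iff_zsmul_eq_zero.1 h)
          rw [hR] at h3
          have h4 : ((addOrderOf R : ℕ) : ℤ) ∣ k - 2 := by
            rw [hR]
            push_cast at h1 h3 ⊢
            omega
          have h5 := addOrderOf_dvd_iff_zsmul_eq_zero.1 h4
          rw [sub_zsmul] at h5
          rw [add_neg_eq_zero.1 h5]
          exact natCast_zsmul R 2
        apply hPQ
        rw [key P hP hPR, key Q hQ hQR]
        exact AddSubgroup.mem_zmultiples _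
      · exact h4 ⟨R, Q, hR, hQ, hQR⟩
    · exact h4 ⟨R, P, hR, hP, hPR⟩
  have n3 : ∀ R : G, addOrderOf R ≠ 3 := by
    intro R hR
    have h1 : addOrderOf (R + P) = 6 := by
      rw [(AddCommute.all R P).addOrderOf_add_eq_mul_addOrderOf_of_coprime (by
        rw [hR, hP]
        decide), hR, hP]
    refine h6 ⟨R + P, Q, h1, hQ, fun h => ?_⟩
    obtain ⟨k, hk⟩ := AddSubgroup.mem_zmultiples_iff.1 h
    have h2 : (2 : ℤ) • (k • (R + P)) = 0 := by
      rw [hk]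
      have := addOrderOf_nsmul_eq_zero Q
      rw [hQ] at this
      exact_mod_cast this
    rw [smul_smul, ← addOrderOf_dvd_iff_zsmul_eq_zero, h1] at h2
    obtain ⟨l, hl⟩ : ∃ l : ℤ, k = 3 * l := ⟨k / 3, by
      push_cast at h2
      omega⟩
    apply hPQ
    rw [← hk, hl, mul_comm, mul_zsmul, zsmul_add]
    have h3 : (3 : ℤ) • R = 0 := by
      have := addOrderOf_nsmul_eq_zero R
      rw [hR] at this
      exact_mod_cast this
    rw [h3, zero_add]
    exact AddSubgroup.zsmul_mem _ (AddSubgroup.zsmul_mem _ (AddSubgroup.mem_zmultiples P) _) _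
  exact fun R => ⟨n4 R, n3 R⟩

/-- no point of order 3 or 4 -/
def No34 (c : ℤ × ℤ) : Prop :=
  ∀ P : (Sh c.1 c.2).toAffine.Point, addOrderOf P ≠ 3 ∧ addOrderOf P ≠ 4

open Classical in
/-- the curves of `Cv 2` without a point of order 3 or 4 -/
noncomputable def G34 (H : ℕ) : Finset (ℤ × ℤ) := (Cv 2 H).filter (fun c => No34 c)

lemma G34_sub (H : ℕ) : G34 H ⊆ Cv 2 H := by
  classical
  intro c hc
  unfold G34 at hc
  exact (mem_filter.1 hc).1

lemma cover34 (H : ℕ) : Cv 2 H ⊆ G34 H ∪ (Cv 4 H ∪ Cv 6 H) := by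
  classical
  intro k hk
  rw [mem_union, mem_union]
  by_cases c4 : HasT 4 (Sh k.1 k.2)
  · exact Or.inr (Or.inl (mem_Cv hk c4))
  by_cases c6 : HasT 6 (Sh k.1 k.2)
  · exact Or.inr (Or.inr (mem_Cv hk c6))
  · left
    unfold G34
    rw [mem_filter]
    refine ⟨hk, fun P => ?_⟩
    have h2 : HasT 2 (Sh k.1 k.2) := by
      unfold Cv at hk
      exact (mem_filter.1 hk).2.2.2.2.2
    have := ord_of h2 c4 c6 P
    exact ⟨this.2, this.1⟩

lemma few34 (ε : ℝ) (hε : 0 < ε) : ∃ H0 : ℕ, ∀ H : ℕ, H0 ≤ H →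
    ((Cv 2 H).card : ℝ) ≤ (G34 H).card + ε * (Cv 2 H).card := by
  classical
  obtain ⟨H1, h1⟩ := negl4 (ε / 2) (by positivity)
  obtain ⟨H2, h2⟩ := negl6 (ε / 2) (by positivity)
  refine ⟨max H1 H2, fun H hH => ?_⟩
  have a1 := h1 H (by omega)
  have a2 := h2 H (by omega)
  have a3 : (Cv 2 H).card ≤ (G34 H).card + ((Cv 4 H).card + (Cv 6 H).card) :=
    (card_le_card (cover34 H)).trans
      ((card_union_le _ _).trans (Nat.add_le_add_left (card_union_le _ _) _))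
  have a4 : ((Cv 2 H).card : ℝ) ≤ (G34 H).card + ((Cv 4 H).card + (Cv 6 H).card) := by
    exact_mod_cast a3
  linarith

lemma pos2 : ∃ H1 : ℕ, ∀ H, H1 ≤ H → (0 : ℝ) < (Cv 2 H).card := by
  have ht := Pool.Agent.W307.RT.tendsto_of_low Pool.Agent.W672.FK.lowf
  obtain ⟨H1, h1⟩ := (tendsto_atTop_atTop.1 ht) 1
  exact ⟨H1, fun H hH => by exact_mod_cast h1 H hH⟩

lemma ratio34 : Tendsto (fun H : ℕ => ((G34 H).card : ℝ) / (Cv 2 H).card) atTop (𝓝 1) := by
  rw [Metric.tendsto_atTop]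
  intro ε hε
  obtain ⟨H0, h0⟩ := few34 (ε / 2) (by positivity)
  obtain ⟨H1, h1⟩ := pos2
  refine ⟨max H0 H1, fun H hH => ?_⟩
  have a0 := h0 H (by omega)
  have a1 := h1 H (by omega)
  have a2 : ((G34 H).card : ℝ) ≤ (Cv 2 H).card := by exact_mod_cast card_le_card (G34_sub H)
  have a3 : ((G34 H).card : ℝ) / (Cv 2 H).card ≤ 1 := div_le_one_of_le₀ a2 a1.le
  have a4 : 1 - ε < ((G34 H).card : ℝ) / (Cv 2 H).card := by
    rw [lt_div_iff₀ a1]
    nlinarith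
  rw [Real.dist_eq, abs_lt]
  constructor <;> linarith

lemma tend34 : Tendsto (fun H : ℕ => (G34 H).card) atTop atTop := by
  have ht := Pool.Agent.W307.RT.tendsto_of_low Pool.Agent.W672.FK.lowf
  obtain ⟨H0, h0⟩ := few34 (1 / 2) (by norm_num)
  rw [tendsto_atTop_atTop] at ht ⊢
  intro b
  obtain ⟨H1, h1⟩ := ht (2 * b)
  refine ⟨max H0 H1, fun H hH => ?_⟩
  have a0 := h0 H (by omega)
  have a1 : (2 * b : ℝ) ≤ (Cv 2 H).card := by exact_mod_cast h1 H (by omega)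
  have a2 : (b : ℝ) ≤ (G34 H).card := by linarith
  exact_mod_cast a2

/-- the average of `4 ^ rank` -/
lemma avg34 : ∃ C : ℝ, ∀ H : ℕ, ∑ c ∈ G34 H,
    (4 : ℝ) ^ Module.finrank ℤ (Sh c.1 c.2).toAffine.Point ≤ C * (G34 H).card := by
  classical
  obtain ⟨C, hC⟩ := Pool.Agent.W307.FK.finh
  obtain ⟨H0, h0⟩ := few34 (1 / 2) (by norm_num)
  have hS : ∀ H : ℕ, ∑ c ∈ G34 H, (4 : ℝ) ^ Module.finrank ℤ (Sh c.1 c.2).toAffine.Point ≤
      |C| * (Cv 2 H).card := by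
    intro H
    calc ∑ c ∈ G34 H, (4 : ℝ) ^ Module.finrank ℤ (Sh c.1 c.2).toAffine.Point
        ≤ ∑ c ∈ Cv 2 H, (4 : ℝ) ^ Module.finrank ℤ (Sh c.1 c.2).toAffine.Point :=
          sum_le_sum_of_subset_of_nonneg (G34_sub H) fun _ _ _ => by positivity
      _ ≤ ∑ c ∈ Cv 2 H, ((SelR c.1 c.2).ncard : ℝ) ^ 2 := by
          apply sum_le_sum
          intro c hc
          have h1 : ((2 : ℝ) ^ Module.finrank ℤ (Sh c.1 c.2).toAffine.Point) ≤
              ((SelR c.1 c.2).ncard : ℝ) := by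
            exact_mod_cast Pool.Agent.TH344.DT.rank_le2 hc
          have h2 : (4 : ℝ) ^ Module.finrank ℤ (Sh c.1 c.2).toAffine.Point =
              ((2 : ℝ) ^ Module.finrank ℤ (Sh c.1 c.2).toAffine.Point) ^ 2 := by
            rw [← pow_mul, mul_comm, pow_mul]
            norm_num
          rw [h2]
          exact pow_le_pow_left₀ (by positivity) h1 2
      _ ≤ C * (Cv 2 H).card := (hC H).2
      _ ≤ |C| * (Cv 2 H).card := by
          apply mul_le_mul_of_nonneg_right (le_abs_self C) (Nat.cast_nonneg _)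
  have hC0 : 0 ≤ |C| := abs_nonneg C
  refine ⟨2 * |C| + |C| * (Cv 2 H0).card, fun H => ?_⟩
  rcases (G34 H).eq_empty_or_nonempty with he | hne
  · rw [he]
    simp
  have hK : (1 : ℝ) ≤ (G34 H).card := by exact_mod_cast Finset.card_pos.2 hne
  have hN : (0 : ℝ) ≤ (Cv 2 H0).card := Nat.cast_nonneg _
  refine (hS H).trans ?_
  rcases le_total H0 H with hH | hH
  · have a0 := h0 H hH
    have a1 : ((Cv 2 H).card : ℝ) ≤ 2 * (G34 H).card := by linarith
    calc |C| * ((Cv 2 H).card : ℝ) ≤ |C| * (2 * (G34 H).card) :=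
          mul_le_mul_of_nonneg_left a1 hC0
      _ = 2 * |C| * (G34 H).card := by ring
      _ ≤ _ := by
          apply mul_le_mul_of_nonneg_right _ (by linarith)
          have := mul_nonneg hC0 hN
          linarith
  · have a1 : ((Cv 2 H).card : ℝ) ≤ (Cv 2 H0).card := by
      exact_mod_cast card_le_card (Pool.Agent.TH344.DT.Cv_mono hH)
    calc |C| * ((Cv 2 H).card : ℝ) ≤ |C| * (Cv 2 H0).card :=
          mul_le_mul_of_nonneg_left a1 hC0
      _ = |C| * (Cv 2 H0).card * 1 := by ring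
      _ ≤ (2 * |C| + |C| * (Cv 2 H0).card) * (G34 H).card := by
          apply mul_le_mul _ hK (by norm_num) (by positivity)
          linarith

/-- the tails of the rank -/
lemma tail34 (A : ℝ) : Tendsto (fun r : ℕ => A ^ r * limsup (fun H : ℕ =>
    (((G34 H).filter (fun c => r ≤ Module.finrank ℤ (Sh c.1 c.2).toAffine.Point)).card : ℝ) /
      (G34 H).card) atTop) atTop (𝓝 0) := by
  classical
  set S : ℕ → Set (ℤ × ℤ) := fun r => {c | r ≤ Module.finrank ℤ (Sh c.1 c.2).toAffine.Point}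
    with hSd
  have h := Pool.Agent.TH344.DT.tail_set Pool.Agent.TH344.DT.exc 1 (S := S)
    (fun r H c hc hr => by
      rw [pow_one]
      exact (Nat.pow_le_pow_right (by norm_num) hr).trans (Pool.Agent.TH344.DT.rank_le2 hc)) |A|
  have h2 := h.const_mul 2
  rw [mul_zero] at h2
  obtain ⟨H0, h0⟩ := few34 (1 / 2) (by norm_num)
  obtain ⟨H1, h1⟩ := pos2
  set f : ℕ → ℕ → ℝ := fun r H =>
    (((G34 H).filter (fun c => r ≤ Module.finrank ℤ (Sh c.1 c.2).toAffine.Point)).card : ℝ) /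
      (G34 H).card with hf
  have f0 : ∀ r H, 0 ≤ f r H := fun r H => by rw [hf]; positivity
  have f1 : ∀ r H, f r H ≤ 1 := fun r H => by
    rw [hf]
    apply div_le_one_of_le₀ _ (Nat.cast_nonneg _)
    exact_mod_cast card_filter_le _ _
  have fl : ∀ r, 0 ≤ limsup (f r) atTop := fun r => by
    apply le_limsup_of_frequently_le
    · exact (Eventually.of_forall fun H => f0 r H).frequently
    · exact ⟨1, eventually_map.2 (Eventually.of_forall fun H => f1 r H)⟩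
  have key : ∀ r, limsup (f r) atTop ≤ 2 * Pool.Agent.TH344.DT.ud (S r) := by
    intro r
    apply le_of_forall_pos_le_add
    intro δ hδ
    have e1 : ∀ᶠ H : ℕ in atTop, (((Cv 2 H : Set (ℤ × ℤ)) ∩ S r).ncard : ℝ) /
        ((Cv 2 H).card : ℝ) < Pool.Agent.TH344.DT.ud (S r) + δ / 2 := by
      apply eventually_lt_of_limsup_lt
      · exact lt_add_of_pos_right _ (by positivity)
      · exact ⟨1, eventually_map.2 (Eventually.of_forall fun H =>
          Pool.Agent.TH344.DT.ratio_le_one (S r) H)⟩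
    apply limsup_le_of_le
    · exact IsCoboundedUnder.of_frequently_ge
        (Eventually.of_forall fun H => f0 r H).frequently
    filter_upwards [e1, eventually_ge_atTop H0, eventually_ge_atTop H1] with H e2 e3 e4
    have a0 := h0 H e3
    have a1 := h1 H e4
    have a2 : ((Cv 2 H).card : ℝ) ≤ 2 * (G34 H).card := by linarith
    have a3 : (0 : ℝ) < (G34 H).card := by linarith
    rw [div_lt_iff₀ a1] at e2
    have a4 : (((G34 H).filter (fun c => r ≤ Module.finrank ℤ (Sh c.1 c.2).toAffine.Point)).card :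
        ℝ) ≤ (((Cv 2 H : Set (ℤ × ℤ)) ∩ S r).ncard : ℝ) := by
      rw [← Set.ncard_coe_finset]
      have : (((G34 H).filter (fun c => r ≤ Module.finrank ℤ (Sh c.1 c.2).toAffine.Point) :
          Finset (ℤ × ℤ)) : Set (ℤ × ℤ)).ncard ≤ ((Cv 2 H : Set (ℤ × ℤ)) ∩ S r).ncard := by
        apply Set.ncard_le_ncard
        · intro c hc
          have hc' := mem_filter.1 (mem_coe.1 hc)
          exact ⟨mem_coe.2 (G34_sub H hc'.1), hc'.2⟩
        · exact (finite_toSet _).subset Set.inter_subset_left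
      exact_mod_cast this
    have a5 : 0 ≤ Pool.Agent.TH344.DT.ud (S r) + δ / 2 := by
      have := Pool.Agent.TH344.DT.ud_nonneg (S r)
      linarith
    change (((G34 H).filter (fun c => r ≤ Module.finrank ℤ (Sh c.1 c.2).toAffine.Point)).card :
        ℝ) / (G34 H).card ≤ _
    rw [div_le_iff₀ a3]
    calc _ ≤ (((Cv 2 H : Set (ℤ × ℤ)) ∩ S r).ncard : ℝ) := a4
      _ ≤ (Pool.Agent.TH344.DT.ud (S r) + δ / 2) * (Cv 2 H).card := e2.le
      _ ≤ (Pool.Agent.TH344.DT.ud (S r) + δ / 2) * (2 * (G34 H).card) :=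
          mul_le_mul_of_nonneg_left a2 a5
      _ = _ := by ring
  apply squeeze_zero_norm _ h2
  intro r
  rw [Real.norm_eq_abs, abs_mul, abs_pow, abs_of_nonneg (fl r)]
  calc |A| ^ r * limsup (f r) atTop ≤ |A| ^ r * (2 * Pool.Agent.TH344.DT.ud (S r)) :=
        mul_le_mul_of_nonneg_left (key r) (by positivity)
    _ = 2 * (|A| ^ r * Pool.Agent.TH344.DT.ud (S r)) := by ring

end Pool.Agent.Y294.ET
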